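import Pool.Agent.W932.RO.Fin2
import Pool.Agent.W554.RO.LB
import Pool.Agent.W460.RO.SZ
import Pool.Agent.W290.RO.Core
import Pool.Agent.W125.RO.MEAS
import Pool.Agent.W883.RO.MACH
import Pool.Agent.W215.RO.Num
import Pool.Agent.W352.RO.POLY
import Pool.Agent.W382.RO.POS
import Pool.Agent.W461.RO.S1
import Pool.Agent.W45.RO.S2

/-!
# Weighted satisfiability of formulas relative to a random oracle

For almost every oracle `A` there is a parameterized problem in the small class for formulas
(`W[SAT]`) which is not in any class with a number of alternations bounded by an arbitrary function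
of the parameter (`AW[*]`, hence not in the union of the classes `W[t]` and `A[t]`).
-/

set_option autoImplicit false

namespace Pool.Agent.Results.MP_39539f_lc.FormulasRandomOracle

open MeasureTheory Pool.Agent.H620R2.Gauge Pool.Agent.W911.AL Pool.Agent.W932.RO

theorem result :
    (∀ᵐ A ∂fair, ∃ Q : Set (List Bool), SmallSat A kap Q ∧ ¬ BigStar A kap Q) ∧
    PolyNat kap ∧
    (∀ (A : Oracle) (t : ℕ) (κ : List Bool → ℕ) (Q : Set (List Bool)), 1 ≤ t →
      Big A t κ Q → BigStar A κ Q) := by
  refine ⟨?_, Pool.Agent.W352.RO.POLY.main.1, ?_⟩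
  swap
  · rintro A t κ Q ht ⟨P, M, α, h, hP, hx⟩
    refine ⟨P, M, α, h, fun _ => t - 1, hP, fun x => ?_⟩
    rw [hx x, Nat.sub_add_cancel ht]
  have h1 := Pool.Agent.W932.RO.finalS Pool.Agent.W554.RO.main Pool.Agent.W460.RO.main
    Pool.Agent.W290.RO.main Pool.Agent.W125.RO.main1 Pool.Agent.W125.RO.main2
    Pool.Agent.W883.RO.main1 Pool.Agent.W883.RO.main2 Pool.Agent.W883.RO.main3
    Pool.Agent.W215.RO.main Pool.Agent.W45.RO.main1 Pool.Agent.W45.RO.main2
    Pool.Agent.W382.RO.POS.main
  filter_upwards [h1] with A hA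
  exact ⟨langS A, Pool.Agent.W461.RO.S1.main A, hA⟩

end Pool.Agent.Results.MP_39539f_lc.FormulasRandomOracle
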