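import Pool.Agent.W953.RD.Low

/-!
# Reductions between the levels of the W-hierarchy on few and on many slices

`Red d` is the existence of nonuniform reductions of fpt size from `p-WSAT(Γ_{d+2,1})` to
`p-WSAT(Γ_{d+1,1})` (to `p-WSAT(Γ_{1,2})` if `d = 0`), and `RedOn d t W` is the existence of such
reductions with at most `t M` NOT gates which, for every `a`, have to be right only on the codes
with at least `a` and less than `a + W M` ones, for `M` input bits.

Here it is shown that the two are equivalent if `1 ≤ W M ≤ 2 ^ t M`, and that `RedOn d t W` is false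
if `2 ^ t M * M ^ (1 / q) ≤ W M` for a constant `q`.
-/

set_option autoImplicit false

namespace Pool.Agent.Results.MP_39539f_lc.ReductionWindows

open Filter Pool.Agent.W953.RD

/-- (1) If `1 ≤ W M ≤ 2 ^ t M` then `RedOn d t W` is equivalent to `Red d`. (2) If for infinitely
many `M = 2 * n ^ (d + 2)` one has `2 ^ t M * M ^ (1 / q) ≤ W M` and `2 ^ t M * M ^ (1 / q) ≤ M`
then `RedOn d t W` is false. -/
theorem result (d : ℕ) :
    (∀ t W : ℕ → ℕ, (∀ M, 1 ≤ W M ∧ W M ≤ 2 ^ t M) → (RedOn d t W ↔ Red d)) ∧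
    (∀ (q : ℕ) (t W : ℕ → ℕ), 1 ≤ q →
      (∃ᶠ n : ℕ in atTop, 2 ^ (q * t (2 * n ^ (d + 2))) * (2 * n ^ (d + 2)) ≤
        (min (W (2 * n ^ (d + 2))) (2 * n ^ (d + 2))) ^ q) → ¬ RedOn d t W) :=
  ⟨red_iff d, fun q t W hq h => not_redOn d q hq t W h⟩

end Pool.Agent.Results.MP_39539f_lc.ReductionWindows
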